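import Pool.Agent.N251.LF.AeExp
import Pool.Agent.Results.MP_a15a7c_al.FewExceptionalOrders

/-!
# Conjugacy classes: all orders near generic linear forms

Let `v_i`, `i` in a countable set, be vectors in `ℝ^k` such that the sum of the `1 / (log |v_i|) ^ A` converges for some `A`;
for instance all vectors `(b_1^(n_1), …, b_k^(n_k))`, `b_j > 1`. Let `L = log |v_i|`. For almost all `α` in `ℝ^k`, for all `ε > 0`,
`w` and `B`, for all but finitely many `i`: for EVERY natural number `n` with `|n - α · v_i| ≤ w L ^ B`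
every group of order `n` has at least `n ^ (1 - ε)` conjugacy classes, and more than `log n / log 2`.
The same holds for the orders `F (n)`, where `F` is a composition of additive functions (such as the sum of the prime factors)
or similar functions.

Proof. The number of the exceptional `n ≤ x` is at most `K x exp (- c √(log x))` (`FewExceptionalOrders`). For each `i` the
volume of the set of the `α` with an exceptional number in the window of `v_i` is at most a power of `1 / L`, and the lemma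
of Borel and Cantelli applies (`Pool.Agent.N251.LF.Ae`).
-/

set_option autoImplicit false

open MeasureTheory

namespace Pool.Agent.Results.MP_a15a7c_al.GenericLinearForms

open Pool.Agent.N251.LF (Slow Fast ae_nat slow_examples)
open Pool.Agent.N375.AV (PD comp pd_additive pd_largest pd_kempner)
open Pool.Agent.Results.MP_a15a7c_al.FewExceptionalOrders (ManyClasses LogBound)

/-- every group of order `n` has at least `n ^ (1 - ε)` conjugacy classes, and more than `log n / log 2` -/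
def Good (ε : ℝ) (n : ℕ) : Prop := ManyClasses ε n ∧ LogBound n

lemma mono {ε ε' : ℝ} (h : ε ≤ ε') {n : ℕ} (hn : Good ε n) : Good ε' n := by
  refine ⟨fun G _ _ hG => ?_, hn.2⟩
  have h0 : 0 < n := by
    rw [← hG]
    exact Nat.card_pos
  have h1 : (1 : ℝ) ≤ n := by exact_mod_cast h0
  exact (Real.rpow_le_rpow_of_exponent_le h1 (by linarith)).trans (hn.1 G hG)

/-- **Theorem.** Let `v` be a family of vectors in `ℝ^k` such that the sum of the `1 / (1 + log (1 + ‖v_i‖)) ^ A` converges for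
some `A` (`Slow`), and let `L_i = 1 + log (1 + ‖v_i‖)`.
(1) For almost all `α` in `ℝ^k`, all `ε > 0` and all `w`, `B`, for all but finitely many `i`: ALL natural numbers `n` with
`|n - ∑ α_j v_(i,j)| ≤ w L_i ^ B` satisfy `Good ε n`.
(2) Let `F` be the composition of a list of functions with the property `PD`. For almost all `α` the same holds with
`Good ε (F n)`.
(3) Examples of functions with the property `PD`.
(4) Such families are the `(u_1(n_1), …, u_k(n_k))`, for all natural numbers `n_1, …, n_k`, if for all `j` and some `a, c > 0`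
one has `c (n + 1) ^ a ≤ 1 + log (1 + |u_j(n)|)`; for instance `u_j(n) = b ^ n`, `b > 1`, or `exp (n ^ a)`, `a > 0`. -/
theorem result :
    (∀ (k : ℕ) (ι : Type) (v : ι → Fin k → ℝ), Slow v → ∀ᵐ α : Fin k → ℝ, ∀ ε : ℝ, 0 < ε → ∀ (w : ℝ) (B : ℕ),
      {i | ¬ ∀ n : ℕ, |(n : ℝ) - ∑ j, α j * v i j| ≤ w * (1 + Real.log (1 + ‖v i‖)) ^ B → Good ε n}.Finite) ∧
    (∀ fs : List (ℕ → ℕ), (∀ f ∈ fs, PD f) →
      ∀ (k : ℕ) (ι : Type) (v : ι → Fin k → ℝ), Slow v → ∀ᵐ α : Fin k → ℝ, ∀ ε : ℝ, 0 < ε → ∀ (w : ℝ) (B : ℕ),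
      {i | ¬ ∀ n : ℕ, |(n : ℝ) - ∑ j, α j * v i j| ≤ w * (1 + Real.log (1 + ‖v i‖)) ^ B →
        Good ε (comp fs n)}.Finite) ∧
    ((∀ f : ℕ → ℕ, (∀ a b : ℕ, Nat.Coprime a b → f (a * b) = f a + f b) →
      (∃ C : ℕ, ∀ q j : ℕ, q.Prime → 1 ≤ j → f (q ^ j) ≤ C * q ^ j) →
      (∃ P : ℕ, ∀ p q : ℕ, p.Prime → q.Prime → P ≤ p → P ≤ q → f p = f q → p = q) → PD f) ∧
      PD (fun n => n.primeFactors.sup id) ∧ PD (fun n => sInf {k : ℕ | n ∣ k.factorial})) ∧
    (∀ (k : ℕ) (u : Fin k → ℕ → ℝ), (∀ j, Fast (u j)) → Slow (fun (n : Fin k → ℕ) (j : Fin k) => u j (n j))) ∧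
    (∀ b : ℝ, 1 < b → Fast (fun n => b ^ n)) ∧
    ∀ a : ℝ, 0 < a → Fast (fun n => Real.exp ((n : ℝ) ^ a)) := by
  refine ⟨fun k ι v hv => ?_, fun fs hfs k ι v hv => ?_,
    ⟨fun f a1 a2 a3 => pd_additive a1 a2 a3, pd_largest, pd_kempner⟩, slow_examples⟩
  · have key : ∀ᵐ α : Fin k → ℝ, ∀ e : ℕ, ∀ (w : ℝ) (B : ℕ),
        {i | ¬ ∀ n : ℕ, |(n : ℝ) - ∑ j, α j * v i j| ≤ w * (1 + Real.log (1 + ‖v i‖)) ^ B →
          Good (1 / ((e : ℝ) + 1)) n}.Finite := by
      rw [ae_all_iff]
      intro e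
      refine ae_nat (β := 1 / 2) (by norm_num) _ ?_ v hv
      obtain ⟨c, K, hc, h⟩ := (FewExceptionalOrders.result.1 (1 / ((e : ℝ) + 1)) (by positivity)).1
      refine ⟨c, K, hc, fun x hx => ?_⟩
      rw [← Real.sqrt_eq_rpow]
      exact h x hx
    filter_upwards [key] with α hα ε hε w B
    obtain ⟨e, he⟩ := exists_nat_one_div_lt hε
    refine (hα e w B).subset ?_
    intro i hi hcon
    exact hi fun n hn => mono he.le (hcon n hn)
  · have key : ∀ᵐ α : Fin k → ℝ, ∀ e : ℕ, ∀ (w : ℝ) (B : ℕ),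
        {i | ¬ ∀ n : ℕ, |(n : ℝ) - ∑ j, α j * v i j| ≤ w * (1 + Real.log (1 + ‖v i‖)) ^ B →
          Good (1 / ((e : ℝ) + 1)) (comp fs n)}.Finite := by
      rw [ae_all_iff]
      intro e
      exact ae_nat (β := 1 / ((fs.length : ℝ) + 2)) (by positivity) (fun n => Good (1 / ((e : ℝ) + 1)) (comp fs n))
        ((FewExceptionalOrders.result.1 (1 / ((e : ℝ) + 1)) (by positivity)).2 fs hfs) v hv
    filter_upwards [key] with α hα ε hε w B
    obtain ⟨e, he⟩ := exists_nat_one_div_lt hε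
    refine (hα e w B).subset ?_
    intro i hi hcon
    exact hi fun n hn => mono he.le (hcon n hn)

end Pool.Agent.Results.MP_a15a7c_al.GenericLinearForms
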